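import Mathlib
import Pool.Agent.P.MP_6f60ef_co.CertData

/-!
Certificates that the mod 2 van Kampen system of a graph on nine vertices has no solution,
for every graph turned into its complement by one of two permutations.
-/

set_option autoImplicit false

namespace Pool.Agent.P.MP_6f60ef_co

/-- the integer system satisfied by every crossing-free drawing -/
def Sys {V : Type} [LinearOrder V] (H : V → V → Prop) : Prop :=
  ∃ k : V → V → V → ℤ, ∀ a b c d, H a b → H c d → a ≠ c → a ≠ d → b ≠ c → b ≠ d →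
      (if c < b then 1 else 0) + (if b < d then 1 else 0) + (if a < c then 1 else 0)
        + (if d < a then 1 else 0) - 2 + k c a b + k b c d - k a c d - k d a b = 0

def ind (x y : Nat) : Nat := bif Nat.blt x y then 1 else 0

def chkQ (H : Nat → Nat → Bool) (a b c d : Nat) : Bool :=
  H a b && H c d && !(Nat.beq a b) && !(Nat.beq c d) && !(Nat.beq a c) && !(Nat.beq a d)
    && !(Nat.beq b c) && !(Nat.beq b d)

def mskQ (a b c d : Nat) : Nat :=
  2 ^ (81 * c + 9 * a + b) ^^^ 2 ^ (81 * b + 9 * c + d) ^^^ 2 ^ (81 * a + 9 * c + d)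
    ^^^ 2 ^ (81 * d + 9 * a + b)

def upQ (a b c d : Nat) : Nat := ind c b + ind b d + ind a c + ind d a

def dig (c i : Nat) : Nat := c / 9 ^ i % 9

def chk (H : Nat → Nat → Bool) (c : Nat) : Nat → Nat → Nat → Bool
  | 0, m, u => Nat.beq m 0 && Nat.beq (u % 2) 1
  | j + 1, m, u =>
    chkQ H (dig c (4 * j)) (dig c (4 * j + 1)) (dig c (4 * j + 2)) (dig c (4 * j + 3)) &&
      chk H c j
        (m ^^^ mskQ (dig c (4 * j)) (dig c (4 * j + 1)) (dig c (4 * j + 2)) (dig c (4 * j + 3)))
        (u + upQ (dig c (4 * j)) (dig c (4 * j + 1)) (dig c (4 * j + 2)) (dig c (4 * j + 3)))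

def tab (T u v : Nat) : Nat := T / 16 ^ (9 * u + v) % 16

def Hb (To Te b u v : Nat) : Bool := xor (b.testBit (tab To u v)) (Nat.beq (tab Te u v % 2) 1)

def chkC (To Te c : Nat) : Bool := chk (Hb To Te (c % 1024)) (c / 102400) (c / 1024 % 100) 0 0

theorem allA : certsA.all (chkC tabOA tabEA) = true := by decide +kernel

theorem allB : certsB.all (chkC tabOB tabEB) = true := by decide +kernel

theorem covA : certsA.map (· % 1024) = List.range 32 := by decide +kernel

theorem covB : certsB.map (· % 1024) = List.range 1024 := by decide +kernel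

/-- value of a mask -/
noncomputable def val (K : Nat → ZMod 2) (m : Nat) : ZMod 2 :=
  ∑ i ∈ Finset.range 729, if m.testBit i then K i else 0

theorem val_zero (K : Nat → ZMod 2) : val K 0 = 0 := by simp [val]

theorem val_xor (K : Nat → ZMod 2) (m n : Nat) : val K (m ^^^ n) = val K m + val K n := by
  unfold val
  rw [← Finset.sum_add_distrib]
  refine Finset.sum_congr rfl fun i _ => ?_
  rw [Nat.testBit_xor]
  cases m.testBit i <;> cases n.testBit i <;> simp [CharTwo.add_self_eq_zero]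

theorem val_pow (K : Nat → ZMod 2) (i : Nat) (hi : i < 729) : val K (2 ^ i) = K i := by
  unfold val
  rw [Finset.sum_eq_single i]
  · simp [Nat.testBit_two_pow_self]
  · intro j _ hj
    simp [Nat.testBit_two_pow_of_ne (Ne.symm hj)]
  · intro h; exact absurd (Finset.mem_range.2 hi) h

theorem dig_lt (c i : Nat) : dig c i < 9 := Nat.mod_lt _ (by norm_num)

theorem chk_sound (H : Nat → Nat → Bool) (K : Nat → ZMod 2)
    (hK : ∀ a b c d, a < 9 → b < 9 → c < 9 → d < 9 → chkQ H a b c d = true →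
      (upQ a b c d : ZMod 2) + val K (mskQ a b c d) = 0) (c : Nat) :
    ∀ (j m u : Nat), (u : ZMod 2) + val K m = 0 → chk H c j m u = false := by
  intro j
  induction j with
  | zero =>
    intro m u h
    by_contra hc
    simp only [chk, Bool.not_eq_false, Bool.and_eq_true, Nat.beq_eq] at hc
    obtain ⟨h1, h2⟩ := hc
    rw [h1, val_zero, add_zero, ← Nat.mod_add_div u 2, h2] at h
    push_cast at h
    have h22 : (2 : ZMod 2) = 0 := rfl
    rw [h22] at h
    simp at h
  | succ j ih =>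
    intro m u h
    by_contra hc
    simp only [chk, Bool.not_eq_false, Bool.and_eq_true] at hc
    obtain ⟨h1, h2⟩ := hc
    have h3 := hK _ _ _ _ (dig_lt _ _) (dig_lt _ _) (dig_lt _ _) (dig_lt _ _) h1
    rw [ih _ _ (by rw [val_xor]; push_cast; linear_combination h + h3)] at h2
    exact Bool.false_ne_true h2

theorem ind_eq (x y : Fin 9) : ((ind x y : Nat) : ℤ) = if x < y then 1 else 0 := by
  unfold ind
  by_cases h : x < y
  · have : Nat.blt x y = true := by rw [Nat.blt_eq]; exact h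
    simp [this, h]
  · have : Nat.blt x y = false := by
      rw [← Bool.not_eq_true, Nat.blt_eq]; exact h
    simp [this, h]

theorem not_sys_of_chk (A : Fin 9 → Fin 9 → Prop) (H : Nat → Nat → Bool)
    (hH : ∀ u v : Fin 9, u ≠ v → H u v = true → A u v) (c j : Nat)
    (hc : chk H c j 0 0 = true) : ¬ Sys A := by
  rintro ⟨k, hk⟩
  let K : Nat → ZMod 2 := fun i =>
    (k (Fin.ofNat 9 (i / 81)) (Fin.ofNat 9 (i / 9)) (Fin.ofNat 9 i) : ZMod 2)
  have hKv : ∀ x y z : Fin 9, K (81 * x + 9 * y + z) = (k x y z : ZMod 2) := by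
    intro x y z
    have hx := x.2; have hy := y.2; have hz := z.2
    have e1 : Fin.ofNat 9 ((81 * x + 9 * y + z) / 81) = x := by
      apply Fin.ext; simp only [Fin.ofNat]; omega
    have e2 : Fin.ofNat 9 ((81 * x + 9 * y + z) / 9) = y := by
      apply Fin.ext; simp only [Fin.ofNat]; omega
    have e3 : Fin.ofNat 9 (81 * x + 9 * y + z) = z := by
      apply Fin.ext; simp only [Fin.ofNat]; omega
    simp only [K, e1, e2, e3]
  have := chk_sound H K ?_ c j 0 0 (by simp [val_zero])
  · rw [this] at hc; exact Bool.false_ne_true hc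
  intro a b c d ha hb hc hd hq
  lift a to Fin 9 using ha
  lift b to Fin 9 using hb
  lift c to Fin 9 using hc
  lift d to Fin 9 using hd
  simp only [chkQ, Bool.and_eq_true, Bool.not_eq_true', ← Bool.not_eq_true, Nat.beq_eq] at hq
  obtain ⟨⟨⟨⟨⟨⟨⟨h1, h2⟩, h3⟩, h4⟩, h5⟩, h6⟩, h7⟩, h8⟩ := hq
  have e := hk a b c d (hH a b (fun e => h3 (by rw [e])) h1) (hH c d (fun e => h4 (by rw [e])) h2)
    (fun e => h5 (by rw [e])) (fun e => h6 (by rw [e])) (fun e => h7 (by rw [e]))
    (fun e => h8 (by rw [e]))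
  rw [← ind_eq, ← ind_eq, ← ind_eq, ← ind_eq] at e
  have e' := congrArg (fun z : ℤ => (z : ZMod 2)) e
  have ha := a.2; have hb := b.2; have hc := c.2; have hd := d.2
  unfold mskQ upQ
  rw [val_xor, val_xor, val_xor, val_pow, val_pow, val_pow, val_pow, hKv, hKv, hKv, hKv]
  · push_cast at e' ⊢
    have h22 : (2 : ZMod 2) = 0 := rfl
    linear_combination e' + (1 + (k a c d : ZMod 2) + (k d a b : ZMod 2)) * h22
  all_goals omega

theorem not_sys_of_sig (sig : Fin 9 → Fin 9) (hsig : Function.Injective sig) (To Te m : Nat)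
    (r1 r2 : Fin m → Fin 9) (certs : List Nat)
    (hall : certs.all (chkC To Te) = true) (hcov : certs.map (· % 1024) = List.range (2 ^ m))
    (htab : ∀ u v : Fin 9, u ≠ v → ∃ j : Fin m, tab To u v = j ∧ r1 j ≠ r2 j ∧
      ((sig^[tab Te u v] (r1 j) = u ∧ sig^[tab Te u v] (r2 j) = v) ∨
        (sig^[tab Te u v] (r1 j) = v ∧ sig^[tab Te u v] (r2 j) = u)))
    (A : Fin 9 → Fin 9 → Prop) (hs : ∀ u v, A u v → A v u)
    (hA : ∀ u v, u ≠ v → (A (sig u) (sig v) ↔ ¬ A u v)) : ¬ Sys A := by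
  classical
  have hit : ∀ (e : Nat) (u v : Fin 9), u ≠ v →
      (A (sig^[e] u) (sig^[e] v) ↔ (xor (decide (A u v)) (Nat.beq (e % 2) 1) = true)) := by
    intro e
    induction e with
    | zero => intro u v _; simp [Nat.beq]
    | succ e ih =>
      intro u v huv
      rw [Function.iterate_succ_apply', Function.iterate_succ_apply',
        hA _ _ ((hsig.iterate e).ne huv), ih u v huv]
      rcases Nat.mod_two_eq_zero_or_one e with h | h
      · have : (e + 1) % 2 = 1 := by omega
        rw [h, this]; simp [Nat.beq]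
      · have : (e + 1) % 2 = 0 := by omega
        rw [h, this]; simp [Nat.beq]
  let b := Nat.ofBits (fun j : Fin m => decide (A (r1 j) (r2 j)))
  have hb : b ∈ certs.map (· % 1024) := by
    rw [hcov]; exact List.mem_range.2 (Nat.ofBits_lt_two_pow _)
  obtain ⟨c, hc, hcb⟩ := List.mem_map.1 hb
  have h1 := List.all_eq_true.1 hall c hc
  unfold chkC at h1
  refine not_sys_of_chk A _ ?_ _ _ h1
  intro u v huv h
  obtain ⟨j, hj, hr, hor⟩ := htab u v huv
  rw [hcb] at h
  unfold Hb at h
  rw [hj, Nat.testBit_ofBits_lt _ _ j.2] at h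
  have := (hit (tab Te u v) _ _ hr).2 h
  rcases hor with ⟨e1, e2⟩ | ⟨e1, e2⟩
  · rwa [e1, e2] at this
  · rw [e1, e2] at this; exact hs _ _ this

def sigA : Fin 9 → Fin 9 := ![1, 2, 3, 4, 5, 6, 7, 0, 8]
def sigB : Fin 9 → Fin 9 := ![1, 2, 3, 0, 5, 6, 7, 4, 8]

theorem not_sys_A (A : Fin 9 → Fin 9 → Prop) (hs : ∀ u v, A u v → A v u)
    (hA : ∀ u v, u ≠ v → (A (sigA u) (sigA v) ↔ ¬ A u v)) : ¬ Sys A :=
  not_sys_of_sig sigA (by decide) tabOA tabEA 5 ![0, 0, 0, 0, 0] ![1, 2, 3, 4, 8] certsA allA covA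
    (by decide +kernel) A hs hA

theorem not_sys_B (A : Fin 9 → Fin 9 → Prop) (hs : ∀ u v, A u v → A v u)
    (hA : ∀ u v, u ≠ v → (A (sigB u) (sigB v) ↔ ¬ A u v)) : ¬ Sys A :=
  not_sys_of_sig sigB (by decide) tabOB tabEB 10 ![0, 0, 0, 0, 0, 0, 0, 4, 4, 4]
    ![1, 2, 4, 5, 6, 7, 8, 5, 6, 8] certsB allB covB (by decide +kernel) A hs hA

end Pool.Agent.P.MP_6f60ef_co
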