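import Mathlib

/-!
A straight-line biplanar drawing of the complete graph on nine vertices with one crossing.
-/

set_option autoImplicit false

namespace Pool.Agent.P.MP_6f60ef_co

def px : Fin 2 → Fin 9 → ℤ :=
  ![![29, 28, 0, 18, 13, 17, 28, 22, 17], ![17, 21, 29, 14, 15, 12, 5, 23, 11]]

def py : Fin 2 → Fin 9 → ℤ :=
  ![![26, 6, 1, 15, 5, 7, 3, 22, 6], ![23, 18, 19, 23, 14, 6, 2, 16, 29]]

def col : Fin 9 → Fin 9 → Fin 2 :=
  ![![0, 0, 1, 0, 0, 0, 0, 0, 1], ![0, 0, 0, 1, 1, 0, 0, 1, 0], ![1, 0, 0, 0, 0, 1, 0, 0, 1],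
    ![0, 1, 0, 0, 0, 0, 1, 0, 1], ![0, 1, 0, 0, 0, 0, 1, 1, 0], ![0, 0, 1, 0, 0, 0, 1, 1, 0],
    ![0, 0, 0, 1, 1, 1, 0, 1, 1], ![0, 1, 0, 0, 1, 1, 1, 0, 1], ![1, 0, 1, 1, 0, 0, 1, 1, 0]]

def ori (i : Fin 2) (a b c : Fin 9) : ℤ :=
  (px i b - px i a) * (py i c - py i a) - (py i b - py i a) * (px i c - px i a)

noncomputable def pt (i : Fin 2) (u : Fin 9) : ℂ := ⟨px i u, py i u⟩

noncomputable def seg (i : Fin 2) (u v : Fin 9) (t : ℝ) : ℂ :=
  pt i u + (t : ℂ) * (pt i v - pt i u)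

def crossList : List (Fin 2 × Fin 9 × Fin 9 × Fin 9 × Fin 9) :=
  [(0, 0, 4, 3, 5), (0, 0, 4, 5, 3), (0, 3, 5, 0, 4), (0, 3, 5, 4, 0), (0, 4, 0, 3, 5),
    (0, 4, 0, 5, 3), (0, 5, 3, 0, 4), (0, 5, 3, 4, 0)]

theorem col_symm : ∀ u v, col u v = col v u := by decide +kernel

theorem pxy_inj : ∀ i u v, px i u = px i v → py i u = py i v → u = v := by decide +kernel

theorem ori_ne : ∀ i a b c, a ≠ b → c ≠ a → c ≠ b → ori i a b c ≠ 0 := by decide +kernel

theorem cross_mem : ∀ i u v, u ≠ v → col u v = i → ∀ x y, x ≠ y → col x y = i →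
    ori i x y u * ori i x y v < 0 → ori i u v x * ori i u v y < 0 →
    (i, u, v, x, y) ∈ crossList := by decide +kernel

theorem pt_inj (i : Fin 2) : Function.Injective (pt i) := by
  intro u v h
  have h1 := congrArg Complex.re h
  have h2 := congrArg Complex.im h
  simp only [pt] at h1 h2
  exact pxy_inj i u v (by exact_mod_cast h1) (by exact_mod_cast h2)

theorem seg_cont (i : Fin 2) (u v : Fin 9) : Continuous (seg i u v) := by
  unfold seg; fun_prop

theorem seg_inj (i : Fin 2) (u v : Fin 9) (h : u ≠ v) : Function.Injective (seg i u v) := by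
  intro s t e
  unfold seg at e
  have h1 : pt i v - pt i u ≠ 0 := sub_ne_zero.2 fun e => h (pt_inj i e).symm
  have h2 : (s : ℂ) = t := mul_right_cancel₀ h1 (add_left_cancel e)
  exact_mod_cast h2

theorem seg_zero (i : Fin 2) (u v : Fin 9) : seg i u v 0 = pt i u := by simp [seg]
theorem seg_one (i : Fin 2) (u v : Fin 9) : seg i u v 1 = pt i v := by simp [seg]
theorem seg_rev (i : Fin 2) (u v : Fin 9) (t : ℝ) : seg i v u t = seg i u v (1 - t) := by
  unfold seg; push_cast; ring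

theorem seg_eq (i : Fin 2) (u v x y : Fin 9) (t s : ℝ) (h : seg i u v t = seg i x y s) :
    (1 - t) * (ori i x y u : ℝ) + t * (ori i x y v : ℝ) = 0 := by
  have h1 := congrArg Complex.re h
  have h2 := congrArg Complex.im h
  simp only [seg, pt, Complex.add_re, Complex.mul_re, Complex.sub_re, Complex.ofReal_re,
    Complex.ofReal_im, Complex.add_im, Complex.mul_im, Complex.sub_im, zero_mul, sub_zero,
    add_zero] at h1 h2
  unfold ori
  push_cast
  linear_combination ((px i y : ℝ) - px i x) * h2 - ((py i y : ℝ) - py i x) * h1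

theorem ori_self_left (i : Fin 2) (a b : Fin 9) : ori i a b a = 0 := by simp [ori]
theorem ori_self_right (i : Fin 2) (a b : Fin 9) : ori i a b b = 0 := by simp [ori, mul_comm]

theorem seg_ne_pt (i : Fin 2) (u v : Fin 9) (h : u ≠ v) (t : ℝ) (h0 : 0 < t) (h1 : t < 1)
    (w : Fin 9) : seg i u v t ≠ pt i w := by
  intro e
  by_cases hu : w = u
  · rw [hu, ← seg_zero i u v] at e
    exact h0.ne' (seg_inj i u v h e)
  by_cases hv : w = v
  · rw [hv, ← seg_one i u v] at e
    exact h1.ne (seg_inj i u v h e)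
  rw [← seg_zero i w w] at e
  have := seg_eq i w w u v 0 t e.symm
  simp only [sub_zero, one_mul, zero_mul, add_zero, Int.cast_eq_zero] at this
  exact ori_ne i u v w h hu hv this

theorem ori_mul_neg (i : Fin 2) (u v x y : Fin 9) (huv : u ≠ v) (hxy : x ≠ y)
    (h1 : ¬ (u = x ∧ v = y)) (h2 : ¬ (u = y ∧ v = x)) (t s : ℝ) (h0 : 0 < t) (ht : t < 1)
    (h : seg i u v t = seg i x y s) : ori i x y u * ori i x y v < 0 := by
  have e := seg_eq i u v x y t s h
  have hz : ∀ w, ori i x y w = 0 → w = x ∨ w = y := by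
    intro w hw
    by_contra hc
    push Not at hc
    exact ori_ne i x y w hxy hc.1 hc.2 hw
  have hu : ori i x y u ≠ 0 := by
    intro hu
    have hv : ori i x y v = 0 := by
      rw [hu] at e
      simp only [Int.cast_zero, mul_zero, zero_add, mul_eq_zero, h0.ne', false_or,
        Int.cast_eq_zero] at e
      exact e
    rcases hz u hu with e1 | e1 <;> rcases hz v hv with e2 | e2
    · exact huv (e1.trans e2.symm)
    · exact h1 ⟨e1, e2⟩
    · exact h2 ⟨e1, e2⟩
    · exact huv (e1.trans e2.symm)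
  have hu' : (0 : ℝ) < (ori i x y u : ℝ) ^ 2 := by
    have : (ori i x y u : ℝ) ≠ 0 := by exact_mod_cast hu
    positivity
  have : ((ori i x y u * ori i x y v : ℤ) : ℝ) < 0 := by
    push_cast
    have h3 : t * ((ori i x y u : ℝ) * ori i x y v) = - ((1 - t) * (ori i x y u : ℝ) ^ 2) := by
      linear_combination (ori i x y u : ℝ) * e
    have h4 : 0 < (1 - t) * (ori i x y u : ℝ) ^ 2 := mul_pos (by linarith) hu'
    by_contra hc
    push Not at hc
    have := mul_nonneg h0.le hc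
    linarith
  exact_mod_cast this

noncomputable def crossPt (q : Fin 2 × Fin 9 × Fin 9 × Fin 9 × Fin 9) :
    Fin 2 × Fin 9 × Fin 9 × Fin 9 × Fin 9 × ℂ :=
  (q.1, q.2.1, q.2.2.1, q.2.2.2.1, q.2.2.2.2, seg q.1 q.2.1 q.2.2.1
    ((ori q.1 q.2.2.2.1 q.2.2.2.2 q.2.1 : ℝ) /
      ((ori q.1 q.2.2.2.1 q.2.2.2.2 q.2.1 : ℝ) - (ori q.1 q.2.2.2.1 q.2.2.2.2 q.2.2.1 : ℝ))))

theorem cross_sub (i : Fin 2) (u v x y : Fin 9) (z : ℂ) (huv : u ≠ v) (hxy : x ≠ y)
    (c1 : col u v = i) (c2 : col x y = i) (h1 : ¬ (u = x ∧ v = y)) (h2 : ¬ (u = y ∧ v = x))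
    (t : ℝ) (h0 : 0 < t) (ht : t < 1) (e1 : seg i u v t = z)
    (s : ℝ) (s0 : 0 < s) (hs : s < 1) (e2 : seg i x y s = z) :
    (i, u, v, x, y, z) ∈ crossPt '' {q | q ∈ crossList} := by
  have a1 := ori_mul_neg i u v x y huv hxy h1 h2 t s h0 ht (e1.trans e2.symm)
  have a2 := ori_mul_neg i x y u v hxy huv (fun h => h1 ⟨h.1.symm, h.2.symm⟩)
    (fun h => h2 ⟨h.2.symm, h.1.symm⟩) s t s0 hs (e2.trans e1.symm)
  refine ⟨(i, u, v, x, y), cross_mem i u v huv c1 x y hxy c2 a1 a2, ?_⟩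
  have e := seg_eq i u v x y t s (e1.trans e2.symm)
  have hne : (ori i x y u : ℝ) - (ori i x y v : ℝ) ≠ 0 := by
    intro h
    have h' : ori i x y u = ori i x y v := by exact_mod_cast sub_eq_zero.1 h
    rw [h'] at a1
    exact absurd a1 (not_lt.2 (mul_self_nonneg _))
  have : (ori i x y u : ℝ) / ((ori i x y u : ℝ) - (ori i x y v : ℝ)) = t := by
    rw [div_eq_iff hne]; linear_combination e
  simp only [crossPt, this, e1]

theorem cross_fin : (crossPt '' {q | q ∈ crossList}).Finite :=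
  (List.finite_toSet crossList).image _

theorem cross_card : (crossPt '' {q | q ∈ crossList}).ncard ≤ 8 := by
  refine (Set.ncard_image_le (List.finite_toSet crossList)).trans ?_
  have : {q | q ∈ crossList} = (crossList.toFinset : Set _) := by ext; simp
  rw [this, Set.ncard_coe_finset]
  exact List.toFinset_card_le _

end Pool.Agent.P.MP_6f60ef_co
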