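import Mathlib

/-!
The van Kampen obstruction for crossing-free drawings in the plane, through continuous
logarithms on the parameter square of two disjoint edges.
-/

set_option autoImplicit false

namespace Pool.Agent.P.MP_6f60ef_co

open Complex Set

theorem log_exists {X : Type} [TopologicalSpace X] [SimplyConnectedSpace X]
    [LocallyPathConnectedSpace X] (g : X → ℂ) (hg : Continuous g) (h0 : ∀ x, g x ≠ 0) :
    ∃ f : X → ℂ, Continuous f ∧ ∀ x, exp (f x) = g x := by
  obtain ⟨x₀⟩ : Nonempty X := inferInstance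
  rcases isCoveringMapOn_exp.existsUnique_continuousMap_lifts (⟨g, hg⟩ : C(X, ℂ))
    (a₀ := x₀) (e₀ := log (g x₀)) (exp_log (h0 x₀)) (fun x => h0 x) with ⟨f, ⟨-, hf⟩, -⟩
  exact ⟨f, f.continuous, fun x => congrFun hf x⟩

theorem log_unique (f₁ f₂ : ℝ → ℂ) (h₁ : Continuous f₁) (h₂ : Continuous f₂) (c : ℂ)
    (h : ∀ t, exp (f₁ t) = c * exp (f₂ t)) : f₁ 1 - f₁ 0 = f₂ 1 - f₂ 0 := by
  have key : ∀ t, exp (f₁ t - f₂ t) = c := by
    intro t
    rw [exp_sub, h t]
    field_simp [exp_ne_zero (f₂ t)]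
  have hc : (fun t => f₁ t - f₂ t) 1 = (fun t => f₁ t - f₂ t) 0 := by
    apply isCoveringMap_exp.const_of_comp (g := fun t => f₁ t - f₂ t) (h₁.sub h₂)
    intro a a'
    apply Subtype.ext
    simp only [key]
  simp only at hc
  linear_combination hc

/-- clamp to the unit interval -/
noncomputable def cl (t : ℝ) : ℝ := max 0 (min 1 t)

theorem cl_cont : Continuous cl := by unfold cl; fun_prop
theorem cl_mem (t : ℝ) : cl t ∈ Icc (0:ℝ) 1 := by
  unfold cl; constructor
  · exact le_max_left _ _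
  · exact max_le zero_le_one (min_le_left _ _)
theorem cl_zero : cl 0 = 0 := by unfold cl; simp
theorem cl_one : cl 1 = 1 := by unfold cl; simp

theorem exists_k {V : Type} [LinearOrder V] (H : V → V → Prop) (p : V → ℂ) (γ : V → V → ℝ → ℂ)
    (hp : Function.Injective p)
    (hγ : ∀ u v, H u v → ContinuousOn (γ u v) (Icc (0:ℝ) 1) ∧ γ u v 0 = p u ∧ γ u v 1 = p v ∧
      ∀ t : ℝ, 0 < t → t < 1 → ∀ w, γ u v t ≠ p w)
    (hx : ∀ a b c d, H a b → H c d → a ≠ c → a ≠ d → b ≠ c → b ≠ d →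
      ∀ s t : ℝ, 0 < s → s < 1 → 0 < t → t < 1 → γ a b s ≠ γ c d t) :
    ∃ k : V → V → V → ℤ, ∀ a b c d, H a b → H c d → a ≠ c → a ≠ d → b ≠ c → b ≠ d →
      (if c < b then 1 else 0) + (if b < d then 1 else 0) + (if a < c then 1 else 0)
        + (if d < a then 1 else 0) - 2 + k c a b + k b c d - k a c d - k d a b = 0 := by
  classical
  -- continuous extended arcs
  have hΓc : ∀ u v, H u v → Continuous (fun t => γ u v (cl t)) := fun u v h =>
    (hγ u v h).1.comp_continuous cl_cont cl_mem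
  have hΓv : ∀ u v, H u v → ∀ w, w ≠ u → w ≠ v → ∀ t, γ u v (cl t) ≠ p w := by
    intro u v h w hu hv t
    obtain ⟨h0, h1⟩ := cl_mem t
    rcases h0.eq_or_lt with h0 | h0
    · rw [← h0, (hγ u v h).2.1]; exact fun e => hu (hp e).symm
    rcases h1.eq_or_lt with h1 | h1
    · rw [h1, (hγ u v h).2.2.1]; exact fun e => hv (hp e).symm
    exact (hγ u v h).2.2.2 _ h0 h1 w
  -- chosen logarithms of differences
  let lam : V → V → ℂ := fun x y =>
    if x < y then log (p y - p x) else log (p x - p y) - Real.pi * I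
  have hlam : ∀ x y, x ≠ y → exp (lam x y) = p y - p x := by
    intro x y hxy
    have hne : p y - p x ≠ 0 := sub_ne_zero.2 fun e => hxy (hp e).symm
    have hne' : p x - p y ≠ 0 := sub_ne_zero.2 fun e => hxy (hp e)
    by_cases h : x < y
    · simp only [lam, if_pos h]; exact exp_log hne
    · simp only [lam, if_neg h]; rw [exp_sub, exp_log hne', exp_pi_mul_I]; ring
  have hlam2 : ∀ x y, x ≠ y →
      lam x y - lam y x = (2 * ((if x < y then 1 else 0 : ℤ) : ℂ) - 1) * (Real.pi * I) := by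
    intro x y hxy
    rcases lt_or_gt_of_ne hxy with h | h
    · simp only [lam, if_pos h, if_neg (not_lt.2 h.le)]; push_cast; ring
    · simp only [lam, if_pos h, if_neg (not_lt.2 h.le)]; push_cast; ring
  -- logarithm along an arc seen from a vertex
  have hL : ∀ v a b, ∃ L : ℝ → ℂ, ∃ n : ℤ, H a b → v ≠ a → v ≠ b →
      Continuous L ∧ (∀ t, exp (L t) = γ a b (cl t) - p v) ∧
      L 1 - L 0 = lam v b - lam v a + n * (2 * Real.pi * I) := by
    intro v a b
    by_cases hh : H a b ∧ v ≠ a ∧ v ≠ b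
    · obtain ⟨h, ha, hb⟩ := hh
      obtain ⟨L, hLc, hLe⟩ := log_exists (fun t : ℝ => γ a b (cl t) - p v)
        ((hΓc a b h).sub continuous_const) (fun t => sub_ne_zero.2 (hΓv a b h v ha hb t))
      have e : exp (L 1 - L 0) = exp (lam v b - lam v a) := by
        rw [exp_sub, exp_sub, hLe, hLe, hlam v b hb, hlam v a ha, cl_zero, cl_one,
          (hγ a b h).2.1, (hγ a b h).2.2.1]
      obtain ⟨n, hn⟩ := exp_eq_exp_iff_exists_int.1 e
      exact ⟨L, n, fun _ _ _ => ⟨hLc, hLe, hn⟩⟩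
    · exact ⟨fun _ => 0, 0, fun h ha hb => absurd ⟨h, ha, hb⟩ hh⟩
  choose L k hL using hL
  refine ⟨k, fun a b c d hab hcd hac had hbc hbd => ?_⟩
  have hF0 : ∀ q : ℝ × ℝ, γ a b (cl q.1) - γ c d (cl q.2) ≠ 0 := by
    intro q
    refine sub_ne_zero.2 ?_
    obtain ⟨h0, h1⟩ := cl_mem q.1
    rcases h0.eq_or_lt with h0 | h0
    · rw [← h0, (hγ a b hab).2.1]; exact (hΓv c d hcd a hac had _).symm
    rcases h1.eq_or_lt with h1 | h1
    · rw [h1, (hγ a b hab).2.2.1]; exact (hΓv c d hcd b hbc hbd _).symm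
    obtain ⟨h2, h3⟩ := cl_mem q.2
    rcases h2.eq_or_lt with h2 | h2
    · rw [← h2, (hγ c d hcd).2.1]; exact hΓv a b hab c hac.symm hbc.symm _
    rcases h3.eq_or_lt with h3 | h3
    · rw [h3, (hγ c d hcd).2.2.1]; exact hΓv a b hab d had.symm hbd.symm _
    exact hx a b c d hab hcd hac had hbc hbd _ _ h0 h1 h2 h3
  obtain ⟨Θ, hΘc, hΘ⟩ := log_exists (fun q : ℝ × ℝ => γ a b (cl q.1) - γ c d (cl q.2))
    (((hΓc a b hab).comp continuous_fst).sub ((hΓc c d hcd).comp continuous_snd)) hF0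
  obtain ⟨c1, e1, n1⟩ := hL c a b hab hac.symm hbc.symm
  obtain ⟨c2, e2, n2⟩ := hL d a b hab had.symm hbd.symm
  obtain ⟨c3, e3, n3⟩ := hL a c d hcd hac had
  obtain ⟨c4, e4, n4⟩ := hL b c d hcd hbc hbd
  have u1 := log_unique (fun s => Θ (s, 0)) (L c a b) (by fun_prop) c1 1 (by
    intro t; rw [hΘ, e1]; simp only [cl_zero, (hγ c d hcd).2.1, one_mul])
  have u2 := log_unique (fun s => Θ (s, 1)) (L d a b) (by fun_prop) c2 1 (by
    intro t; rw [hΘ, e2]; simp only [cl_one, (hγ c d hcd).2.2.1, one_mul])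
  have u3 := log_unique (fun s => Θ (0, s)) (L a c d) (by fun_prop) c3 (-1) (by
    intro t; rw [hΘ, e3]; simp only [cl_zero, (hγ a b hab).2.1]; ring)
  have u4 := log_unique (fun s => Θ (1, s)) (L b c d) (by fun_prop) c4 (-1) (by
    intro t; rw [hΘ, e4]; simp only [cl_one, (hγ a b hab).2.2.1]; ring)
  have l1 := hlam2 c b hbc.symm
  have l2 := hlam2 b d hbd
  have l3 := hlam2 a c hac
  have l4 := hlam2 d a had.symm
  have hpi : (2 * Real.pi * I : ℂ) ≠ 0 := two_pi_I_ne_zero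
  have fin : ((((if c < b then 1 else 0) + (if b < d then 1 else 0) + (if a < c then 1 else 0)
        + (if d < a then 1 else 0) - 2 + k c a b + k b c d - k a c d - k d a b : ℤ) : ℂ))
        * (2 * Real.pi * I) = 0 := by
    generalize (if c < b then 1 else 0 : ℤ) = i1 at *
    generalize (if b < d then 1 else 0 : ℤ) = i2 at *
    generalize (if a < c then 1 else 0 : ℤ) = i3 at *
    generalize (if d < a then 1 else 0 : ℤ) = i4 at *
    push_cast
    linear_combination (-1 : ℂ) * (u1 + u4 - u3 - u2) - (n1 + n4 - n3 - n2) - (l1 + l2 + l3 + l4)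
  exact_mod_cast (mul_eq_zero.1 fin).resolve_right hpi

end Pool.Agent.P.MP_6f60ef_co
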