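import Mathlib
import Pool.Agent.P.MP_6f60ef_co.Check
import Pool.Agent.P.MP_6f60ef_co.VanKampen

/-!
No self-complementary graph on nine vertices has a crossing-free drawing in the plane.
-/

set_option autoImplicit false

namespace Pool.Agent.P.MP_6f60ef_co

open Equiv Equiv.Perm

def permA : Perm (Fin 9) := ⟨sigA, ![7, 0, 1, 2, 3, 4, 5, 6, 8], by decide, by decide⟩
def permB : Perm (Fin 9) := ⟨sigB, ![3, 0, 1, 2, 7, 4, 5, 6, 8], by decide, by decide⟩

theorem cycA : permA.cycleType = {8} := by decide +kernel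
theorem cycB : permB.cycleType = {4, 4} := by decide +kernel

theorem perm_struct (σ : Perm (Fin 9))
    (h : ∀ (e : ℕ) (u v : Fin 9), Odd e → u ≠ v →
      ¬ ((σ ^ e) u = u ∧ (σ ^ e) v = v) ∧ ¬ ((σ ^ e) u = v ∧ (σ ^ e) v = u)) :
    ∃ f : Perm (Fin 9), (∀ i, σ (f i) = f (sigA i)) ∨ (∀ i, σ (f i) = f (sigB i)) := by
  have h4 : ∀ n ∈ σ.cycleType, 4 ∣ n := by
    intro n hn
    obtain ⟨c, τ, hσ, hd, hc, hcard⟩ := mem_cycleType_iff.1 hn
    have hord : orderOf c = n := by rw [hc.orderOf, hcard]
    have hpow : ∀ (e : ℕ) (x : Fin 9), c x ≠ x → (σ ^ e) x = (c ^ e) x := by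
      intro e x hx
      have hτ : τ x = x := (hd x).resolve_left hx
      rw [hσ, hd.commute.mul_pow, mul_apply, pow_apply_eq_self_of_apply_eq_self hτ]
    obtain ⟨x, hx, -⟩ := id hc
    have hcn : c ^ n = 1 := by rw [← hord]; exact pow_orderOf_eq_one c
    have hmove : ∀ e : ℕ, c ((c ^ e) x) ≠ (c ^ e) x := by
      intro e he
      apply hx
      apply (c ^ e).injective
      rw [← mul_apply, ← pow_succ, pow_succ', mul_apply, he]
    have hn2 : 2 ≤ n := two_le_of_mem_cycleType hn
    rcases Nat.even_or_odd n with he | ho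
    · obtain ⟨m, hm⟩ := he
      rcases Nat.even_or_odd m with he' | ho'
      · obtain ⟨r, hr⟩ := he'; exact ⟨r, by omega⟩
      · exfalso
        have hne : x ≠ (c ^ m) x := by
          intro e
          have h1 : c ^ m = 1 := (hc.pow_eq_one_iff' hx).2 e.symm
          have h2 : n ∣ m := by rw [← hord]; exact orderOf_dvd_of_pow_eq_one h1
          have := Nat.le_of_dvd (by omega) h2
          omega
        apply (h m x ((c ^ m) x) ho' hne).2
        refine ⟨hpow m x hx, ?_⟩
        rw [hpow m _ (hmove m), ← mul_apply, ← pow_add, ← hm, hcn, one_apply]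
    · exfalso
      apply (h n x (c x) ho hx.symm).1
      have h1 := hmove 1
      rw [pow_one] at h1
      rw [hpow n x hx, hpow n _ h1, hcn]
      simp
  have hsupp : 8 ≤ σ.support.card := by
    have : σ.supportᶜ.card ≤ 1 := by
      rw [Finset.card_le_one]
      intro a ha b hb
      by_contra hab
      simp only [Finset.mem_compl, mem_support, not_not] at ha hb
      exact (h 1 a b odd_one hab).1 ⟨by simpa using ha, by simpa using hb⟩
    rw [Finset.card_compl, Fintype.card_fin] at this
    omega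
  have hsupp' : σ.support.card ≤ 9 := by
    simpa using Finset.card_le_univ σ.support
  rw [← sum_cycleType] at hsupp hsupp'
  have h44 : ∀ n ∈ σ.cycleType, 4 ≤ n := fun n hn =>
    Nat.le_of_dvd (by have := two_le_of_mem_cycleType hn; omega) (h4 n hn)
  have hcard : Multiset.card σ.cycleType * 4 ≤ σ.cycleType.sum := by
    simpa using Multiset.card_nsmul_le_sum h44
  have hty : σ.cycleType = {8} ∨ σ.cycleType = {4, 4} := by
    have : Multiset.card σ.cycleType = 0 ∨ Multiset.card σ.cycleType = 1 ∨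
      Multiset.card σ.cycleType = 2 := by omega
    rcases this with h0 | h1 | h2
    · rw [Multiset.card_eq_zero.1 h0] at hsupp; simp at hsupp
    · obtain ⟨a, ha⟩ := Multiset.card_eq_one.1 h1
      left
      have := h4 a (by simp [ha])
      rw [ha] at hsupp hsupp' ⊢
      simp only [Multiset.sum_singleton] at hsupp hsupp'
      have : a = 8 := by omega
      rw [this]
    · obtain ⟨a, b, ha⟩ := Multiset.card_eq_two.1 h2
      right
      have := h4 a (by simp [ha])
      have := h4 b (by simp [ha])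
      have := h44 a (by simp [ha])
      have := h44 b (by simp [ha])
      rw [ha] at hsupp hsupp' ⊢
      simp only [Multiset.insert_eq_cons, Multiset.sum_cons, Multiset.sum_singleton]
        at hsupp hsupp'
      have e1 : a = 4 := by omega
      have e2 : b = 4 := by omega
      rw [e1, e2]
  rcases hty with ht | ht
  · obtain ⟨f, hf⟩ := isConj_iff.1 (isConj_iff_cycleType_eq.2 (cycA.trans ht.symm))
    exact ⟨f, Or.inl fun i => by rw [← hf]; simp [permA]⟩
  · obtain ⟨f, hf⟩ := isConj_iff.1 (isConj_iff_cycleType_eq.2 (cycB.trans ht.symm))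
    exact ⟨f, Or.inr fun i => by rw [← hf]; simp [permB]⟩

/-- A graph on nine vertices that a permutation turns into its complement has no crossing-free
drawing. -/
theorem no_plane_drawing (H : Fin 9 → Fin 9 → Prop) (hs : ∀ u v, H u v → H v u)
    (σ : Perm (Fin 9)) (hσ : ∀ u v, u ≠ v → (H (σ u) (σ v) ↔ ¬ H u v))
    (p : Fin 9 → ℂ) (γ : Fin 9 → Fin 9 → ℝ → ℂ) (hp : Function.Injective p)
    (hγ : ∀ u v, H u v → ContinuousOn (γ u v) (Set.Icc (0:ℝ) 1) ∧ γ u v 0 = p u ∧
      γ u v 1 = p v ∧ ∀ t : ℝ, 0 < t → t < 1 → ∀ w, γ u v t ≠ p w)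
    (hx : ∀ a b c d, H a b → H c d → a ≠ c → a ≠ d → b ≠ c → b ≠ d →
      ∀ s t : ℝ, 0 < s → s < 1 → 0 < t → t < 1 → γ a b s ≠ γ c d t) : False := by
  have hit : ∀ (e : ℕ) (u v : Fin 9), u ≠ v →
      (H ((σ ^ e) u) ((σ ^ e) v) ↔ (Even e ↔ H u v)) := by
    intro e
    induction e with
    | zero => intro u v _; simp
    | succ e ih =>
      intro u v huv
      rw [pow_succ', mul_apply, mul_apply, hσ _ _ ((σ ^ e).injective.ne huv), ih u v huv,
        Nat.even_add_one]
      tauto
  obtain ⟨f, hf⟩ := perm_struct σ (by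
    intro e u v he huv
    have h1 := hit e u v huv
    have h2 : ¬ Even e := Nat.not_even_iff_odd.2 he
    constructor
    · rintro ⟨e1, e2⟩
      rw [e1, e2] at h1; tauto
    · rintro ⟨e1, e2⟩
      rw [e1, e2] at h1
      have := hs u v
      have := hs v u
      tauto)
  have hsys : Sys (fun u v => H (f u) (f v)) :=
    exists_k (fun u v => H (f u) (f v)) (fun u => p (f u)) (fun u v => γ (f u) (f v))
      (hp.comp f.injective)
      (fun u v h => ⟨(hγ _ _ h).1, (hγ _ _ h).2.1, (hγ _ _ h).2.2.1,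
        fun t h0 h1 w => (hγ _ _ h).2.2.2 t h0 h1 _⟩)
      (fun a b c d h1 h2 h3 h4 h5 h6 => hx _ _ _ _ h1 h2 (f.injective.ne h3) (f.injective.ne h4)
        (f.injective.ne h5) (f.injective.ne h6))
  rcases hf with hf | hf
  · refine not_sys_A _ (fun u v => hs _ _) (fun u v huv => ?_) hsys
    rw [← hf, ← hf]; exact hσ _ _ (f.injective.ne huv)
  · refine not_sys_B _ (fun u v => hs _ _) (fun u v huv => ?_) hsys
    rw [← hf, ← hf]; exact hσ _ _ (f.injective.ne huv)

end Pool.Agent.P.MP_6f60ef_co
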